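import Pool.Agent.Helper7.LQ.Defs

/-!
# LQ-ONE: chains when every leaf is read once
-/

namespace Pool.Agent.Helper40.LQ

open Pool.Agent.Helper6.TreeEval Pool.Agent.Helper7.LQ

/-- the position of `e` in `W` -/
def pos {α : Type} [DecidableEq α] (W : List α) (e : α) : ℕ := W.idxOf e

theorem pos_inj {α : Type} [DecidableEq α] {W : List α} {e f : α} (he : e ∈ W)
    (h : pos W e = pos W f) : e = f := (List.idxOf_inj he).1 h

theorem pat_swap {α : Type} [DecidableEq α] (W : List α) {e f : α} (h : e ≠ f) :
    pat W e f = swp (pat W f e) := by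
  induction W with
  | nil => rfl
  | cons x W ih =>
    unfold pat swp at ih ⊢
    by_cases h1 : x = e
    · have h2 : x ≠ f := fun h' => h (h1.symm.trans h')
      simpa [h1, h, h2] using ih
    · by_cases h2 : x = f
      · have h3 : f ≠ e := fun h' => h h'.symm
        simpa [h2, h3] using ih
      · simpa [h1, h2] using ih

theorem pat_single {α : Type} [DecidableEq α] (W : List α) (hW : W.Nodup) {e f : α}
    (he : e ∉ W) (hf : f ∈ W) : pat W e f = [false] := by
  induction W with
  | nil => simp at hf
  | cons x W ih =>
    rw [List.nodup_cons] at hW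
    rw [List.mem_cons, not_or] at he
    unfold pat at ih ⊢
    have hxe : ¬ x = e := fun h => he.1 h.symm
    by_cases h2 : x = f
    · have h4 : W.filter (fun y => y = e ∨ y = f) = [] := by
        rw [List.filter_eq_nil_iff]
        intro y hy
        simp only [decide_eq_true_eq, not_or]
        exact ⟨fun h => he.2 (h ▸ hy), fun h => hW.1 (h2.trans h.symm ▸ hy)⟩
      rw [List.filter_cons_of_pos (by simp [h2]), h4]
      simp [hxe]
    · rw [List.filter_cons_of_neg (by simp [hxe, h2])]
      rcases List.mem_cons.1 hf with h | h
      · exact absurd h.symm h2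
      · exact ih hW.2 he.2 h

theorem pat_lt {α : Type} [DecidableEq α] (W : List α) (hW : W.Nodup) {e f : α}
    (hf : f ∈ W) (h : pos W e < pos W f) : pat W e f = [true, false] := by
  unfold pos at h
  induction W with
  | nil => simp at hf
  | cons x W ih =>
    rw [List.nodup_cons] at hW
    by_cases h1 : x = e
    · have hef : e ≠ f := by rintro rfl; exact lt_irrefl _ h
      have hf' : f ∈ W := by
        rcases List.mem_cons.1 hf with h2 | h2
        · exact absurd (h1.symm.trans h2.symm) hef
        · exact h2
      have h3 := pat_single W hW.2 (e := e) (f := f) (h1 ▸ hW.1) hf'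
      unfold pat at h3 ⊢
      rw [List.filter_cons_of_pos (by simp [h1]), List.map_cons, h3]
      simp [h1]
    · have h2 : ¬ x = f := by
        rintro rfl
        rw [List.idxOf_cons_self] at h
        exact absurd h (Nat.not_lt_zero _)
      rw [List.idxOf_cons_ne _ h1, List.idxOf_cons_ne _ h2] at h
      have hf' : f ∈ W := by
        rcases List.mem_cons.1 hf with h3 | h3
        · exact absurd h3.symm h2
        · exact h3
      have := ih hW.2 hf' (Nat.lt_of_succ_lt_succ h)
      unfold pat at this ⊢
      rw [List.filter_cons_of_neg (by simp [h1, h2])]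
      exact this

theorem pat_gt {α : Type} [DecidableEq α] (W : List α) (hW : W.Nodup) {e f : α}
    (he : e ∈ W) (h : pos W f < pos W e) : pat W e f = [false, true] := by
  have hef : e ≠ f := by rintro rfl; exact lt_irrefl _ h
  rw [pat_swap W hef, pat_lt W hW he h]
  rfl

theorem Chain_take {L : List Node} {j : ℕ} {u : Node} (h : Chain L j u) :
    ∀ m, Chain (L.take m) j u := by
  induction h with
  | nil j u => intro m; simpa using Chain.nil j u
  | skip b h ih => intro m; exact Chain.skip b (ih m)
  | record b w hw h ih =>
    intro m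
    cases m with
    | zero => simpa using Chain.nil _ _
    | succ m => simpa using Chain.record b w hw (ih m)

theorem AltList_take {α : Type} [DecidableEq α] (W : List α) (L : List α) :
    ∀ (ω : List Bool) (m : ℕ), AltList W ω L → AltList W ω (L.take m) := by
  induction L with
  | nil => intro ω m h; simpa using h
  | cons e L ih =>
    intro ω m h
    cases m with
    | zero => trivial
    | succ m =>
      exact ⟨fun f hf => h.1 f (List.mem_of_mem_take hf), ih _ m h.2⟩

theorem nodup_of_all (d : ℕ) (W : List Node) (hW : W.length ≤ 2 ^ d)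
    (hall : ∀ w : Node, w.length = d → w ∈ W) : W.Nodup := by
  let S : Finset (Fin d → Bool) := Finset.univ
  have hinj : Function.Injective (fun f : Fin d → Bool => List.ofFn f) := List.ofFn_injective
  have h1 : (S.map ⟨_, hinj⟩) ⊆ W.toFinset := by
    intro w hw
    obtain ⟨f, -, rfl⟩ := Finset.mem_map.1 hw
    exact List.mem_toFinset.2 (hall _ (List.length_ofFn))
  have h2 := Finset.card_le_card h1
  rw [Finset.card_map, Finset.card_univ, Fintype.card_fun, Fintype.card_bool, Fintype.card_fin]
    at h2
  have h3 : W.toFinset.card ≤ W.length := W.toFinset_card_le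
  have h4 : W.dedup.length = W.length := by
    rw [← List.card_toFinset]; omega
  rw [← List.dedup_eq_self]
  exact (List.dedup_sublist W).eq_of_length h4

theorem exists_full (d : ℕ) (W : List Node) (hN : W.Nodup)
    (hall : ∀ w : Node, w.length = d → w ∈ W) (j : ℕ) :
    ∀ (u : Node) (_ : j + u.length = d) (o : Bool), ∃ L : List Node, Chain L j u ∧ L.length = j ∧
      AltList W (if o then [true, false] else [false, true]) L ∧
      ∀ x ∈ L, ∃ w : Node, w.length = j ∧ x = w ++ u := by
  induction j with
  | zero => intro u _ o; exact ⟨[], Chain.nil 0 u, rfl, trivial, by simp⟩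
  | succ j ih =>
    intro u hu o
    -- the extreme leaf below `u`
    obtain ⟨w, hw, hext⟩ : ∃ w : Node, w.length = j + 1 ∧ ∀ w' : Node, w'.length = j + 1 →
        (if o then pos W (w ++ u) ≤ pos W (w' ++ u)
          else pos W (w' ++ u) ≤ pos W (w ++ u)) := by
      let g : (Fin (j + 1) → Bool) → ℕ := fun f => pos W (List.ofFn f ++ u)
      have hof : ∀ w' : Node, w'.length = j + 1 →
          ∃ f : Fin (j + 1) → Bool, List.ofFn f = w' := by
        intro w' hw'
        refine ⟨fun i => w'.get (Fin.cast hw'.symm i), ?_⟩
        apply List.ext_getElem (by rw [List.length_ofFn, hw'])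
        intro i h1 h2
        rw [List.getElem_ofFn]
        rfl
      cases o with
      | true =>
        obtain ⟨f, -, hf⟩ := Finset.exists_min_image Finset.univ g Finset.univ_nonempty
        refine ⟨List.ofFn f, List.length_ofFn, fun w' hw' => ?_⟩
        obtain ⟨f', rfl⟩ := hof w' hw'
        exact hf f' (Finset.mem_univ _)
      | false =>
        obtain ⟨f, -, hf⟩ := Finset.exists_max_image Finset.univ g Finset.univ_nonempty
        refine ⟨List.ofFn f, List.length_ofFn, fun w' hw' => ?_⟩
        obtain ⟨f', rfl⟩ := hof w' hw'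
        exact hf f' (Finset.mem_univ _)
    obtain ⟨w₀, c, rfl⟩ : ∃ (w₀ : Node) (c : Bool), w = w₀ ++ [c] := by
      have hne : w ≠ [] := by rintro rfl; simp at hw
      exact ⟨w.dropLast, w.getLast hne, (List.dropLast_append_getLast hne).symm⟩
    have hw₀ : w₀.length = j := by simpa using hw
    obtain ⟨L, hL1, hL2, hL3, hL4⟩ := ih ((!c) :: u) (by simp; omega) (!o)
    have hcc : w₀ ++ [c] ++ u = w₀ ++ (!(!c)) :: u := by simp
    refine ⟨(w₀ ++ (!(!c)) :: u) :: L, Chain.record (!c) w₀ hw₀ hL1, by simp [hL2], ?_, ?_⟩
    · refine ⟨?_, ?_⟩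
      · intro f hf
        obtain ⟨w', hw', rfl⟩ := hL4 f hf
        rw [← hcc]
        have hfu : w' ++ (!c) :: u = (w' ++ [!c]) ++ u := by simp
        have hne : w₀ ++ [c] ++ u ≠ (w' ++ [!c]) ++ u := by
          intro h
          have h1 := List.append_cancel_right h
          have h2 := (List.append_inj' h1 rfl).2
          cases c <;> simp at h2
        have hmem : ∀ v : Node, v.length = j + 1 → v ++ u ∈ W := fun v hv =>
          hall _ (by rw [List.length_append, hv]; omega)
        have hm1 := hmem (w₀ ++ [c]) (by simp [hw₀])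
        have hm2 := hmem (w' ++ [!c]) (by simp [hw'])
        have hidx : pos W (w₀ ++ [c] ++ u) ≠ pos W ((w' ++ [!c]) ++ u) := by
          intro h
          exact hne (pos_inj hm1 h)
        have h5 := hext (w' ++ [!c]) (by simp [hw'])
        rw [hfu]
        cases o with
        | true =>
          simp only [if_true] at h5
          simp only [if_true]
          exact pat_lt W hN hm2 (lt_of_le_of_ne h5 hidx)
        | false =>
          simp only [Bool.false_eq_true, if_false] at h5
          simp only [Bool.false_eq_true, if_false]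
          exact pat_gt W hN hm1 (lt_of_le_of_ne h5 (Ne.symm hidx))
      · cases o <;> simpa [swp] using hL3
    · intro x hx
      rcases List.mem_cons.1 hx with h | h
      · refine ⟨w₀ ++ [c], by simp [hw₀], ?_⟩
        rw [h, hcc]
      · obtain ⟨w', hw', rfl⟩ := hL4 x h
        exact ⟨w' ++ [!c], by simp [hw'], by simp⟩

theorem exists_chain_one (d : ℕ) (W : List Node) (hW : W.length ≤ 2 ^ d)
    (hall : ∀ w : Node, w.length = d → w ∈ W) (n : ℕ) (hn : 2 * n + 1 ≤ d) :
    ∃ (L : List Node) (ω : List Bool), Chain L d [] ∧ L.length = 2 * n + 1 ∧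
      ω.length ≤ 2 ∧ AltList W ω L := by
  obtain ⟨L, hL1, hL2, hL3, -⟩ := exists_full d W (nodup_of_all d W hW hall) hall d []
    (by simp) true
  refine ⟨L.take (2 * n + 1), [true, false], Chain_take hL1 _, ?_, by simp, ?_⟩
  · rw [List.length_take, hL2]; omega
  · exact AltList_take W L _ _ (by simpa using hL3)

end Pool.Agent.Helper40.LQ
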